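import Mathlib
import Pool.Agent.TH712.HG.SPartG

/-!
# MP_c09272_nt: the generalised Hall inequality with the part of `d` prime to `S`

Let `m`, `n` be exponents with `1 / m + 1 / n < 1`, `T` a finite set of primes, `r` a number, `Γ` a
finitely generated group of rational numbers (for instance all `T`-units), and `ε > 0`. There is
`K` such that for every subset `S` of `T`, every `S`-unit integer `a`, every nonzero integer `d`
and all integers `x`, `y` with `y ^ m = x ^ n + a d` which are sums of `r` elements of `Γ` with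
integral coefficients of absolute value at most `M`, and such that no prime `p` in `S` satisfies
`p ^ m ∣ x` and `p ^ n ∣ y`,

  `|y| ≤ (K M) ^ K |d| ^ (n / (m n - m - n) + ε)`, `|x| ≤ (K M) ^ K |d| ^ (m / (m n - m - n) + ε)`.

So in the inequality of the generalised Hall conjecture the number `y ^ m - x ^ n` may be replaced
by its part prime to `S`, for these integers. The proof carries out the argument of Davenport with
the Wronskian for the integers themselves at every place of `S` (the `S`-adic subspace theorem with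
moving coefficients, in an ultrapower, `Pool.Agent.TH551.HA`), and multiplies the resulting
inequalities for the places of `S` and the infinite place.
-/

set_option autoImplicit false

namespace Pool.Agent.Results.MP_c09272_nt.PrimeToSPart

open Pool.Agent.TH712.HG Pool.Agent.TH551.HA

theorem result (m n : ℕ) (hmn : m + n < m * n) (T : Finset ℕ) (r : ℕ) (Γ : Subgroup ℚˣ)
    (hΓ : Γ.FG) (ε : ℝ) (hε : 0 < ε) :
    ∃ K : ℝ, 0 < K ∧ ∀ M : ℝ, 1 ≤ M → ∀ S ⊆ T, (∀ p ∈ S, p.Prime) →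
      ∀ (u : Fin r → Γ) (α γ : Fin r → ℤ), (∀ j, |(α j : ℝ)| ≤ M) → (∀ j, |(γ j : ℝ)| ≤ M) →
      ∀ x y a d : ℤ, (x : ℚ) = ∑ j, ((u j : ℚˣ) : ℚ) * α j →
      (y : ℚ) = ∑ j, ((u j : ℚˣ) : ℚ) * γ j → d ≠ 0 → a ≠ 0 → a.natAbs.primeFactors ⊆ S →
      (∀ p ∈ S, ¬ ((p : ℤ) ^ m ∣ x ∧ (p : ℤ) ^ n ∣ y)) → y ^ m = x ^ n + a * d →
      |(y : ℝ)| ≤ (K * M) ^ K * |(d : ℝ)| ^ ((n : ℝ) / (m * n - m - n) + ε) ∧
      |(x : ℝ)| ≤ (K * M) ^ K * |(d : ℝ)| ^ ((m : ℝ) / (m * n - m - n) + ε) := by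
  classical
  have hm0 : 0 < m := by
    rcases Nat.eq_zero_or_pos m with h | h
    · rw [h] at hmn
      omega
    · exact h
  have hn0 : 0 < n := by
    rcases Nat.eq_zero_or_pos n with h | h
    · rw [h, mul_zero] at hmn
      omega
    · exact h
  obtain ⟨n', rfl⟩ : ∃ n', m = n' + 1 := ⟨m - 1, by omega⟩
  obtain ⟨m', rfl⟩ : ∃ m', n = m' + 1 := ⟨n - 1, by omega⟩
  obtain ⟨κ, hκ0, hκ⟩ : ∃ κ : ℕ, 0 < κ ∧ (m' + 1) * (n' + 1) = κ + (m' + 1) + (n' + 1) := by
    refine ⟨(n' + 1) * (m' + 1) - ((n' + 1) + (m' + 1)), by omega, ?_⟩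
    have : (m' + 1) * (n' + 1) = (n' + 1) * (m' + 1) := mul_comm _ _
    omega
  have hκ0R : (0 : ℝ) < κ := by exact_mod_cast hκ0
  have hκ1R : (1 : ℝ) ≤ κ := by exact_mod_cast hκ0
  have hκR : ((m' + 1 : ℝ) * (n' + 1)) = κ + (m' + 1) + (n' + 1) := by exact_mod_cast hκ
  have hden : (((n' + 1 : ℕ) : ℝ) * ((m' + 1 : ℕ) : ℝ) - ((n' + 1 : ℕ) : ℝ) -
      ((m' + 1 : ℕ) : ℝ)) = κ := by
    push_cast
    linarith
  rw [hden]
  set A : ℝ := (n' + 1 : ℝ) + (m' + 1) with hA
  have hA0 : 0 < A := by positivity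
  obtain ⟨ε', hε'⟩ : ∃ ε' : ℝ, ε' = ε * κ / A := ⟨_, rfl⟩
  have hε'0 : 0 < ε' := by rw [hε']; positivity
  have h0 : ∀ S : Finset ℕ, ∃ C : ℝ, (∀ p ∈ S, p.Prime) → ∀ M : ℝ, 1 ≤ M →
      ∀ (u : Fin r → Γ) (a c : Fin r → ℤ), (∀ j, |(a j : ℝ)| ≤ M) →
      (∀ j, |(c j : ℝ)| ≤ M) → ∀ x y e D : ℤ, (x : ℚ) = ∑ j, ((u j : ℚˣ) : ℚ) * a j →
      (y : ℚ) = ∑ j, ((u j : ℚˣ) : ℚ) * c j → D ≠ 0 → e ≠ 0 → e.natAbs.primeFactors ⊆ S →
      (∀ p ∈ S, ¬ ((p : ℤ) ^ (n' + 1) ∣ x ∧ (p : ℤ) ^ (m' + 1) ∣ y)) →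
      y ^ (n' + 1) = x ^ (m' + 1) + e * D →
      (κ : ℝ) / ((m' + 1 : ℝ) * (n' + 1)) *
          Real.log (max (|(x : ℝ)| ^ (m' + 1)) (|(y : ℝ)| ^ (n' + 1))) ≤
        C * (1 + Real.log M) + (1 + ε') * Real.log |(D : ℝ)| := by
    intro S
    by_cases hS : ∀ p ∈ S, p.Prime
    · obtain ⟨C, hC⟩ := hallSG ncF csF hbF fwF m' n' κ hκ hκ0 S hS r Γ hΓ ε' hε'0
      exact ⟨C, fun _ => hC⟩
    · exact ⟨0, fun h => absurd h hS⟩
  choose C hC using h0
  obtain ⟨C0, hC0⟩ : ∃ C0 : ℝ, C0 = ∑ S ∈ T.powerset, |C S| := ⟨_, rfl⟩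
  have hC00 : 0 ≤ C0 := by rw [hC0]; exact Finset.sum_nonneg fun _ _ => abs_nonneg _
  refine ⟨A * C0 + Real.exp 1, by positivity, ?_⟩
  intro M hM S hST hS u α γ hα hγ x y a d hx hy hd ha haS hprim hxy
  have h := hC S hS M hM u α γ hα hγ x y a d hx hy hd ha haS hprim hxy
  set K : ℝ := A * C0 + Real.exp 1 with hK
  set Z : ℝ := max (|(x : ℝ)| ^ (m' + 1)) (|(y : ℝ)| ^ (n' + 1)) with hZ
  have hne : y ^ (n' + 1) ≠ x ^ (m' + 1) := by
    intro h1
    rw [h1] at hxy
    exact mul_ne_zero ha hd (by linarith)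
  have hZ1 : 1 ≤ Z := one_le_size (by omega) (by omega) hne
  have hZ0 : 0 < Z := by linarith
  have hlZ : 0 ≤ Real.log Z := Real.log_nonneg hZ1
  have hd1 : 1 ≤ |(d : ℝ)| := by exact_mod_cast Int.one_le_abs hd
  have hd0 : 0 < |(d : ℝ)| := by linarith
  have hld : 0 ≤ Real.log |(d : ℝ)| := Real.log_nonneg hd1
  have hCS : C S ≤ C0 := by
    refine (le_abs_self _).trans ?_
    rw [hC0]
    exact Finset.single_le_sum (f := fun S => |C S|) (fun _ _ => abs_nonneg _)
      (Finset.mem_powerset.2 hST)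
  have he1 : (1 : ℝ) < Real.exp 1 := by
    have := Real.add_one_lt_exp (show (1 : ℝ) ≠ 0 by norm_num)
    linarith
  have hAC : 0 ≤ A * C0 := by positivity
  have hKe : Real.exp 1 ≤ K := by rw [hK]; linarith
  have hK0 : 0 < K := by linarith
  have hKM : 0 < K * M := by positivity
  have hlM : 0 ≤ 1 + Real.log M := by linarith [Real.log_nonneg hM]
  have hlogKM : 1 + Real.log M ≤ Real.log (K * M) := by
    rw [Real.log_mul (by linarith) (by linarith)]
    have h1 : 1 ≤ Real.log K := by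
      rw [← Real.log_exp 1]
      exact Real.log_le_log (Real.exp_pos _) hKe
    linarith
  have h1 : (A * C0) * (1 + Real.log M) ≤ K * Real.log (K * M) := by
    calc (A * C0) * (1 + Real.log M) ≤ K * (1 + Real.log M) :=
          mul_le_mul_of_nonneg_right (by rw [hK]; linarith) hlM
      _ ≤ K * Real.log (K * M) := mul_le_mul_of_nonneg_left hlogKM hK0.le
  have h2 : (κ : ℝ) / ((m' + 1 : ℝ) * (n' + 1)) * Real.log Z ≤
      C0 * (1 + Real.log M) + (1 + ε') * Real.log |(d : ℝ)| :=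
    h.trans (by
      have := mul_le_mul_of_nonneg_right hCS hlM
      linarith)
  -- the bound for one coordinate
  have key : ∀ (W i j : ℝ), 0 ≤ W → 0 < i → 0 < j → i * j = (m' + 1 : ℝ) * (n' + 1) → j ≤ A →
      W ^ i ≤ Z → W ≤ (K * M) ^ K * |(d : ℝ)| ^ (j / κ + ε) := by
    intro W i j hW hi hj hij hjA hWZ
    have h3 : W = (W ^ i) ^ (1 / i) := by
      rw [← Real.rpow_mul hW, mul_one_div, div_self hi.ne', Real.rpow_one]
    have h4 : W ≤ Z ^ (1 / i) := by
      rw [h3]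
      exact Real.rpow_le_rpow (by positivity) hWZ (by positivity)
    refine h4.trans ?_
    rw [Real.rpow_def_of_pos hZ0, Real.rpow_def_of_pos hKM, Real.rpow_def_of_pos hd0,
      ← Real.exp_add]
    refine Real.exp_le_exp.2 ?_
    have h5 : Real.log Z * (1 / i) =
        j / κ * ((κ : ℝ) / ((m' + 1 : ℝ) * (n' + 1)) * Real.log Z) := by
      rw [← hij]
      field_simp
    have h6 : j / κ * ((κ : ℝ) / ((m' + 1 : ℝ) * (n' + 1)) * Real.log Z) ≤
        j / κ * (C0 * (1 + Real.log M) + (1 + ε') * Real.log |(d : ℝ)|) :=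
      mul_le_mul_of_nonneg_left h2 (by positivity)
    have h7 : j / κ * (C0 * (1 + Real.log M)) ≤ (A * C0) * (1 + Real.log M) := by
      have h8 : j / κ ≤ A := by
        rw [div_le_iff₀ hκ0R]
        nlinarith
      calc j / κ * (C0 * (1 + Real.log M)) ≤ A * (C0 * (1 + Real.log M)) :=
            mul_le_mul_of_nonneg_right h8 (mul_nonneg hC00 hlM)
        _ = (A * C0) * (1 + Real.log M) := by ring
    have h8 : j / κ * ((1 + ε') * Real.log |(d : ℝ)|) ≤
        (j / κ + ε) * Real.log |(d : ℝ)| := by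
      have h9 : j / κ * ε' ≤ ε := by
        rw [hε']
        have h10 : j / κ * (ε * κ / A) = ε * (j / A) := by field_simp
        rw [h10]
        have h11 : j / A ≤ 1 := by
          rw [div_le_one hA0]
          exact hjA
        nlinarith
      have h10 : j / κ * ((1 + ε') * Real.log |(d : ℝ)|) =
          (j / κ + j / κ * ε') * Real.log |(d : ℝ)| := by ring
      rw [h10]
      exact mul_le_mul_of_nonneg_right (by linarith) hld
    rw [h5]
    have h9 : j / κ * (C0 * (1 + Real.log M) + (1 + ε') * Real.log |(d : ℝ)|) =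
        j / κ * (C0 * (1 + Real.log M)) + j / κ * ((1 + ε') * Real.log |(d : ℝ)|) := by ring
    have h10 : Real.log |(d : ℝ)| * (j / κ + ε) = (j / κ + ε) * Real.log |(d : ℝ)| := by ring
    have h11 : Real.log (K * M) * K = K * Real.log (K * M) := by ring
    linarith
  have hm'0 : (0 : ℝ) ≤ m' := Nat.cast_nonneg _
  have hn'0 : (0 : ℝ) ≤ n' := Nat.cast_nonneg _
  constructor
  · have h3 := key |(y : ℝ)| (n' + 1) (m' + 1) (abs_nonneg _) (by positivity) (by positivity)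
      (by ring) (by rw [hA]; linarith) (by
        have h4 : (n' + 1 : ℝ) = ((n' + 1 : ℕ) : ℝ) := by push_cast; ring
        rw [h4, Real.rpow_natCast]
        exact le_max_right _ _)
    push_cast
    exact h3
  · have h3 := key |(x : ℝ)| (m' + 1) (n' + 1) (abs_nonneg _) (by positivity) (by positivity)
      (by ring) (by rw [hA]; linarith) (by
        have h4 : (m' + 1 : ℝ) = ((m' + 1 : ℕ) : ℝ) := by push_cast; ring
        rw [h4, Real.rpow_natCast]
        exact le_max_left _ _)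
    push_cast
    exact h3

end Pool.Agent.Results.MP_c09272_nt.PrimeToSPart
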